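import Pool.Agent.Q44.HS.Main

/-!
# Proper colourings with prescribed colour class sizes

Hajnal–Szemerédi with prescribed sizes: if every prescribed size is at most `⌊n / (Δ + 1)⌋` and
the sizes sum to `n`, then a proper colouring with exactly these class sizes exists. The proof
adapts the Kierstead–Kostochka proof of the Hajnal–Szemerédi theorem.
-/

namespace Pool.Agent.Results.MP_2870db_co.PrescribedSizes

open Finset Pool.Agent.Q44.HS

/-- **Proper colourings with prescribed colour class sizes.** Let `G` be a finite graph on `V` with
maximum degree `Δ` and let `n₀, …, n_{q-1}` be nonnegative integers with sum `|V|`, each at most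
`⌊|V| / (Δ + 1)⌋`. Then `G` has a proper colouring in which exactly `n i` vertices have
colour `i`, for every `i`. -/
theorem result {V : Type*} [Fintype V] (G : SimpleGraph V) [DecidableRel G.Adj]
    (q : ℕ) (n : Fin q → ℕ) (hsum : ∑ i, n i = Fintype.card V)
    (hn : ∀ i, n i ≤ Fintype.card V / (G.maxDegree + 1)) :
    ∃ σ : G.Coloring (Fin q), ∀ i, (univ.filter (fun v => σ v = i)).card = n i := by
  classical
  rcases Nat.eq_zero_or_pos q with rfl | hq
  · have h0 : Fintype.card V = 0 := by rw [← hsum]; simp
    have : IsEmpty V := Fintype.card_eq_zero_iff.1 h0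
    exact ⟨SimpleGraph.Coloring.mk (fun v => this.elim v) (fun {v} => this.elim v),
      fun i => i.elim0⟩
  have : Nonempty (Fin q) := ⟨⟨0, hq⟩⟩
  obtain ⟨g, hg, hgs⟩ := main (ι := Fin q) (univ : Finset V).card G.Adj
    (fun x y h => h.symm) (fun x h => G.loopless.irrefl x h) univ rfl G.maxDegree
    (by
      intro v _
      have h1 : nb G.Adj univ v = G.neighborFinset v := by
        ext x; simp [mem_nb]
      rw [h1, SimpleGraph.card_neighborFinset_eq_degree]
      exact G.degree_le_maxDegree v) n (by rw [card_univ]; exact hsum)
    (by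
      intro i
      rw [card_univ]
      exact (Nat.le_div_iff_mul_le (Nat.succ_pos _)).1 (hn i))
  refine ⟨SimpleGraph.Coloring.mk g (fun {x y} h => hg x (mem_univ _) y (mem_univ _) h), ?_⟩
  intro i
  rw [← hgs i]
  congr 1
  ext v
  simp only [mem_filter, mem_univ, true_and, mem_cl]
  exact Iff.rfl

end Pool.Agent.Results.MP_2870db_co.PrescribedSizes
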